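import Pool.Agent.H77.BD.Targets

/-!
# Board bct_modules, row CED: the centralizer on `e_(-α)`
-/

set_option autoImplicit false

open Set Matrix Pool.Agent.H77.BC Pool.Agent.H77.BD

namespace Pool.Agent.H59.BCT

variable {l : ℕ} {C : Matrix (Fin l) (Fin l) ℤ} {F : Type} [Field F]

theorem ng_ne (α : Root C) : α ≠ ng α := by
  intro h
  have h1 := α.2
  have h2 : α.1 = -α.1 := congrArg Subtype.val h
  have h3 := congrArg (ip C α.1) h2
  rw [ip_neg_right] at h3
  omega

theorem co_eb (γ : Root C) (δ : Root C) : co (eb F γ).1 δ.1 = if δ = γ then 1 else 0 := by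
  rw [co_val]
  rfl

theorem pf_CED (hBRB : T_BRB) (hPRN : T_PRN) (hNBR : T_NBR) (hCEA : T_CEA) (hCEC : T_CEC) :
    T_CED := by
  intro l C hC hl F _ _ g α hLA hCm μ hμ
  obtain ⟨b1, b2, b3, b4, -⟩ := hBRB hC (F := F)
  obtain ⟨gadd, gsmul, gbr⟩ := hLA
  have hA := (hCEA hC g α ⟨gadd, gsmul, gbr⟩ hCm).2
  have hbr2 : ∀ (u v w : Sp C F) (a : F), br (u - a • v) w = br u w - a • br v w := by
    intro u v w a
    rw [sub_eq_add_neg, ← neg_smul, b3, b4, neg_smul, sub_eq_add_neg]
  set w : Sp C F := g (eb F (ng α)) with hw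
  have hw0 : ∀ δ : Root C, ip C δ.1 α.1 ≤ 0 → w.1 δ = if δ = ng α then 1 else 0 :=
    fun δ hδ => hA δ hδ _
  have hwn : w.1 (ng α) = 1 := by
    rw [hw0 (ng α) (by rw [ng_val, ip_neg_left, ip_self]; norm_num), if_pos rfl]
  -- the equation (E1)
  have E1 : ∀ h : Fin l → F, (-pr α.1 h) • w = ah h w - (μ * pr α.1 h) • nf α w := by
    intro h
    have h1 : br (hb h) (eb F (ng α)) = (-pr α.1 h) • eb F (ng α) := by
      rw [b2]
      refine Prod.ext ?_ ?_
      · funext γ
        simp only [ah, eb, Prod.smul_fst, Pi.smul_apply, smul_eq_mul]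
        by_cases hγ : γ = ng α
        · rw [if_pos hγ, hγ, ng_val, pr_neg_left]
        · rw [if_neg hγ, mul_zero, mul_zero]
      · simp only [ah, eb, Prod.smul_snd, smul_zero]
    have h2 := gbr (hb h) (eb F (ng α))
    rw [h1, gsmul, hμ h, hbr2, b2, b1] at h2
    exact h2
  -- the second component
  obtain ⟨h₁, hh₁⟩ := (hPRN hC (F := F)).1 α
  have hw2 : w.2 = -(μ • hh C F α.1) := by
    have h1 := congrArg Prod.snd (E1 h₁)
    rw [hh₁] at h1
    funext i
    have h2 := congrFun h1 i
    simp only [Prod.smul_snd, Prod.snd_sub, Pi.smul_apply, Pi.sub_apply, smul_eq_mul, ah, nf,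
      Pi.zero_apply, co_neg, hwn] at h2
    simp only [Pi.neg_apply, Pi.smul_apply, smul_eq_mul]
    linear_combination -h2
  -- the roots with product 1
  have hw1 : ∀ δ : Root C, ip C δ.1 α.1 = 1 → w.1 δ = 0 := by
    intro δ hδ
    have hne1 : δ ≠ α := by
      intro h
      rw [h, ip_self] at hδ
      norm_num at hδ
    have hne2 : δ ≠ ng α := by
      intro h
      rw [h, ng_val, ip_neg_left, ip_self] at hδ
      norm_num at hδ
    obtain ⟨h, hh⟩ := (hPRN hC (F := F)).2 δ (ng α) hne2
      (by rw [ng_val, neg_neg]; exact fun h => hne1 (Subtype.ext h))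
    rw [pr_sub_left, ng_val, pr_neg_left] at hh
    have h1 := congrFun (congrArg Prod.fst (E1 h)) δ
    have h2 : co w.1 (δ.1 - α.1) = 0 := by
      have h3 : co w.1 (δ.1 - α.1) = w.1 (sb hC δ α hδ) := co_of w.1 (sb hC δ α hδ) rfl
      rw [h3, hw0]
      · refine if_neg fun h => ?_
        have h3 : δ.1 - α.1 = -α.1 := congrArg Subtype.val h
        exact root_ne_zero δ (by
          have := congrArg (fun v => v + α.1) h3
          simpa using this)
      · rw [sb_val, ip_sub_left, hδ, ip_self]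
        norm_num
    simp only [Prod.smul_fst, Prod.fst_sub, Pi.smul_apply, Pi.sub_apply, smul_eq_mul, ah, nf, h2,
      if_neg hne1] at h1
    linear_combination -h1 - (w.1 δ) * hh
  -- the form of `w`
  have hwform : w = eb F (ng α) - μ • hb (hh C F α.1) + (w.1 α) • eb F α := by
    refine Prod.ext ?_ ?_
    · funext γ
      simp only [eb, hb, Prod.fst_add, Prod.fst_sub, Prod.smul_fst, Pi.add_apply, Pi.sub_apply,
        Pi.smul_apply, smul_eq_mul, Pi.zero_apply, smul_zero]
      rcases le_or_gt (ip C γ.1 α.1) 0 with h | h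
      · have hγ : γ ≠ α := by
          intro h'
          rw [h', ip_self] at h
          norm_num at h
        rw [hw0 γ h, if_neg hγ]
        ring
      · have hγ' : γ ≠ ng α := by
          intro h'
          rw [h', ng_val, ip_neg_left, ip_self] at h
          norm_num at h
        by_cases hγ : γ = α
        · rw [hγ, if_neg (ng_ne α), if_pos rfl]
          ring
        · have h1 := ip_le_one hC γ α hγ
          rw [hw1 γ (by omega), if_neg hγ, if_neg hγ']
          ring
    · rw [hw2]
      simp [eb, hb]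
  -- the last coefficient
  obtain ⟨δ, hδ⟩ := hNBR hC hl α
  set z : Root C := ad hC α δ hδ with hz
  have hzv : z.1 = α.1 + δ.1 := rfl
  have hδα : ip C δ.1 α.1 = -1 := by rw [ip_comm hC]; exact hδ
  have hgδ := hCEC hC hl g α ⟨gadd, gsmul, gbr⟩ hCm μ hμ δ z hzv
  have hneδ : α ≠ δ := by
    intro h
    rw [← h, ip_self] at hδ
    norm_num at hδ
  have hnezδ : z ≠ δ := by
    intro h
    have h1 : α.1 + δ.1 = δ.1 := congrArg Subtype.val h
    exact root_ne_zero α (by simpa using h1)
  have hnezα : z ≠ α := by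
    intro h
    have h1 : α.1 + δ.1 = α.1 := congrArg Subtype.val h
    exact root_ne_zero δ (by simpa using h1)
  have hnf0 : nf (ng α) (eb F δ) = 0 := by
    refine Prod.ext ?_ ?_
    · funext γ
      simp only [nf, Prod.fst_zero, Pi.zero_apply]
      have h1 : co (eb F δ).1 (γ.1 - (ng α).1) = 0 := by
        by_cases h2 : ip C (γ.1 - (ng α).1) (γ.1 - (ng α).1) = 2
        · rw [co_of (eb F δ).1 (⟨_, h2⟩ : Root C) rfl]
          refine if_neg fun h => ?_
          have h3 : γ.1 - (ng α).1 = δ.1 := congrArg Subtype.val h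
          have h4 : γ.1 = δ.1 - α.1 := by
            rw [← h3, ng_val]
            abel
          have h5 := γ.2
          rw [h4, ip_sub_left, ip_sub_right, ip_sub_right, ip_self, ip_self, hδ, hδα] at h5
          norm_num at h5
        · exact co_not _ h2
      rw [h1, mul_zero, zero_add]
      split_ifs
      · simp [eb]
      · rfl
    · funext i
      simp only [nf, Prod.snd_zero, Pi.zero_apply]
      have h1 : co (eb F δ).1 (-(ng α).1) = 0 := by
        rw [co_of (eb F δ).1 α (by rw [ng_val, neg_neg])]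
        exact if_neg hneδ
      rw [h1]
      ring
  have h0 : br w (g (eb F δ)) = 0 := by
    rw [hw, ← gbr, b1, hnf0]
    have := gsmul 0 0
    simpa using this
  have hbrw : ∀ v : Sp C F, br w v = nf (ng α) v - μ • ah (hh C F α.1) v + w.1 α • nf α v := by
    intro v
    conv_lhs => rw [hwform]
    rw [b3, hbr2, b4, b1, b2, b1]
  rw [hbrw, hgδ] at h0
  have h1 := congrFun (congrArg Prod.fst h0) z
  set c : F := (eps C α.1 δ.1 : F) * μ with hc
  have hv1 : (eb F δ + c • eb F z).1 z = c := by
    simp only [eb, Prod.fst_add, Prod.smul_fst, Pi.add_apply, Pi.smul_apply, smul_eq_mul,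
      if_neg hnezδ, if_pos]
    ring
  have hv2 : (eb F δ + c • eb F z).1 δ = 1 := by
    simp only [eb, Prod.fst_add, Prod.smul_fst, Pi.add_apply, Pi.smul_apply, smul_eq_mul,
      if_neg (Ne.symm hnezδ), if_pos]
    ring
  have hv3 : (eb F δ + c • eb F z).2 = 0 := by simp [eb]
  have hz1 : ip C z.1 α.1 = 1 := by
    rw [hzv, ip_add_left, ip_self, hδα]
    norm_num
  have e1 : (nf (ng α) (eb F δ + c • eb F z)).1 z = 0 := by
    simp only [nf, hv3, pr_zero, neg_zero, ite_self, add_zero]
    have h2 : co (eb F δ + c • eb F z).1 (z.1 - (ng α).1) = 0 := by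
      refine co_not _ ?_
      rw [ng_val, sub_neg_eq_add, ip_add_left, ip_add_right, ip_add_right, ip_self, ip_self,
        ip_comm hC α.1 z.1, hz1]
      norm_num
    rw [h2, mul_zero]
  have e2 : (ah (hh C F α.1) (eb F δ + c • eb F z)).1 z = c := by
    simp only [ah, hv1, pr_hh, hz1]
    simp
  have e3 : (nf α (eb F δ + c • eb F z)).1 z = (eps C α.1 δ.1 : F) := by
    simp only [nf, hv3, pr_zero, neg_zero, ite_self, add_zero]
    have h2 : z.1 - α.1 = δ.1 := by rw [hzv]; abel
    rw [h2, co_val, hv2, mul_one]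
  simp only [Prod.fst_add, Prod.fst_sub, Prod.smul_fst, Pi.add_apply, Pi.sub_apply,
    Pi.smul_apply, smul_eq_mul, Prod.fst_zero, Pi.zero_apply] at h1 e1 e2 e3
  rw [e1, e2, e3, hc] at h1
  have hn : w.1 α = μ ^ 2 := by
    have h2 : (eps C α.1 δ.1 : F) * (w.1 α - μ ^ 2) = 0 := by linear_combination h1
    rcases mul_eq_zero.1 h2 with h3 | h3
    · exact absurd h3 (eps_ne_zero_F _ _)
    · exact sub_eq_zero.1 h3
  rw [hwform, hn]

end Pool.Agent.H59.BCT
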