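import Pool.Agent.H77.BD.Targets

/-!
# Board bct_modules, row HXY: the Heisenberg group of a root
-/

set_option autoImplicit false

open Set Matrix Pool.Agent.H77.BC Pool.Agent.H77.BD

namespace Pool.Agent.H59.BCT

section groups

variable {F Γ : Type} [Field F] [Group Γ]

theorem prod_add {k : ℕ} (f : Fin k → F → Γ) (hadd : ∀ i s t, f i (s + t) = f i s * f i t)
    (hc : ∀ i j s t, f i s * f j t = f j t * f i s) (a b : Fin k → F) :
    (List.ofFn fun i => f i ((a + b) i)).prod =
      (List.ofFn fun i => f i (a i)).prod * (List.ofFn fun i => f i (b i)).prod := by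
  induction k with
  | zero => simp
  | succ k ih =>
    rw [List.ofFn_succ, List.ofFn_succ, List.ofFn_succ, List.prod_cons, List.prod_cons,
      List.prod_cons]
    have h1 := ih (fun i => f i.succ) (fun i => hadd i.succ) (fun i j => hc i.succ j.succ)
      (fun i => a i.succ) (fun i => b i.succ)
    simp only [Pi.add_apply] at h1 ⊢
    rw [h1, hadd]
    have h2 : Commute (f 0 (b 0)) (List.ofFn fun i : Fin k => f i.succ (a i.succ)).prod := by
      refine Commute.list_prod_right _ _ fun y hy => ?_
      obtain ⟨i, rfl⟩ := (List.mem_ofFn' _ _).1 hy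
      exact hc 0 i.succ (b 0) (a i.succ)
    rw [mul_assoc, mul_assoc, ← mul_assoc (f 0 (b 0)), h2.eq]
    group

theorem prod_left {k : ℕ} (Z : F → Γ) (hZ : ∀ s t, Z (s + t) = Z s * Z t) (f : Fin k → Γ)
    (c : Fin k → F) (y : Γ) (hf : ∀ i, f i * y = Z (c i) * (y * f i))
    (hfZ : ∀ i s, f i * Z s = Z s * f i) :
    (List.ofFn f).prod * y = Z (∑ i, c i) * (y * (List.ofFn f).prod) := by
  induction k with
  | zero =>
    have h0 : Z 0 = 1 := by
      have := hZ 0 0
      rw [add_zero] at this
      exact (mul_eq_left.1 this.symm)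
    simp [h0]
  | succ k ih =>
    rw [List.ofFn_succ, List.prod_cons, Fin.sum_univ_succ]
    have h1 := ih (fun i => f i.succ) (fun i => c i.succ) (fun i => hf i.succ)
      (fun i => hfZ i.succ)
    rw [mul_assoc, h1, ← mul_assoc (f 0), hfZ 0, add_comm (c 0), hZ, mul_assoc, ← mul_assoc (f 0) y,
      hf 0]
    group

theorem prod_right {k : ℕ} (Z : F → Γ) (hZ : ∀ s t, Z (s + t) = Z s * Z t) (g : Fin k → Γ)
    (c : Fin k → F) (x : Γ) (hg : ∀ j, x * g j = Z (c j) * (g j * x))
    (hgZ : ∀ j s, g j * Z s = Z s * g j) :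
    x * (List.ofFn g).prod = Z (∑ j, c j) * ((List.ofFn g).prod * x) := by
  induction k with
  | zero =>
    have h0 : Z 0 = 1 := by
      have := hZ 0 0
      rw [add_zero] at this
      exact (mul_eq_left.1 this.symm)
    simp [h0]
  | succ k ih =>
    rw [List.ofFn_succ, List.prod_cons, Fin.sum_univ_succ]
    have h1 := ih (fun i => g i.succ) (fun i => c i.succ) (fun i => hg i.succ)
      (fun i => hgZ i.succ)
    rw [← mul_assoc, hg 0, mul_assoc, mul_assoc, h1, ← mul_assoc (g 0), hgZ 0, hZ]
    group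

omit [Field F] in
theorem prod_central {k : ℕ} (Z : F → Γ) (f : Fin k → Γ)
    (hfZ : ∀ i s, f i * Z s = Z s * f i) (s : F) :
    (List.ofFn f).prod * Z s = Z s * (List.ofFn f).prod := by
  have h2 : Commute (Z s) (List.ofFn f).prod := by
    refine Commute.list_prod_right _ _ fun y hy => ?_
    obtain ⟨i, rfl⟩ := (List.mem_ofFn' _ _).1 hy
    exact (hfZ i s).symm
  exact h2.eq.symm

end groups

theorem DFn_prod {M : Type} {U : RU M} {α Γ : Type} [Cod M α] [Ful U α] [Group Γ] [Cod M Γ]
    [DG U Γ] {k : ℕ} (f : Fin k → α → Γ) (hf : ∀ i, DFn U (f i)) :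
    DFn U (fun a => (List.ofFn fun i => f i a).prod) := by
  induction k with
  | zero =>
    have h := DFn_const (U := U) (α := α) (1 : Γ)
    simpa using h
  | succ k ih =>
    have h := DFn_gmul (hf 0) (ih (fun i => f i.succ) fun i => hf i.succ)
    simpa [List.ofFn_succ] using h

theorem pf_HXY {M : Type} (U : RU M) (hPRS : T_PRS) : T_HXY U := by
  intro l C hC F Γ _ _ _ _ _ _ x τ hCD hdef k hk γ
  obtain ⟨p, hinj, hpγ, hne⟩ := hPRS hC k hk γ
  have hγp : ∀ i, ip C γ.1 (p i).1 = 1 := fun i => by rw [ip_comm hC]; exact hpγ i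
  let q : Fin k → Root C := fun i => sb hC γ (p i) (hγp i)
  have hq : ∀ i, (q i).1 = γ.1 - (p i).1 := fun i => rfl
  have hpp : ∀ i j, 0 ≤ ip C (p i).1 (p j).1 := by
    intro i j
    have h1 := neg_two_le_ip hC (p i) (p j)
    by_contra hcon
    push Not at hcon
    rcases (by omega : ip C (p i).1 (p j).1 = -2 ∨ ip C (p i).1 (p j).1 = -1) with h2 | h2
    · have h3 := ip_eq_neg_two hC (p i) (p j) h2
      have h4 := hpγ j
      rw [h3, ip_neg_left, hpγ i] at h4
      norm_num at h4
    · have h3 : ip C (ad hC (p i) (p j) h2).1 γ.1 = 2 := by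
        rw [ad_val, ip_add_left, hpγ i, hpγ j]
        norm_num
      have h4 := ip_eq_two hC _ _ h3
      refine hne i j ?_
      rw [← h4, ad_val]
      abel
  have hqq : ∀ i j, ip C (q i).1 (q j).1 = ip C (p i).1 (p j).1 := by
    intro i j
    rw [hq, hq, ip_sub_left, ip_sub_right, ip_sub_right, ip_self, hγp j, hpγ i]
    ring
  have hpq : ∀ i j, ip C (p i).1 (q j).1 = 1 - ip C (p i).1 (p j).1 := by
    intro i j
    rw [hq, ip_sub_right, hpγ i]
  have hqγ : ∀ i, ip C (q i).1 γ.1 = 1 := by
    intro i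
    rw [hq, ip_sub_left, ip_self, hpγ i]
    norm_num
  let e : Fin k → F := fun i => (eps C (p i).1 (q i).1 : F)
  have he : ∀ i, e i * e i = 1 := fun i => eps_mul_self_F _ _
  let f : Fin k → F → Γ := fun i s => x (p i) s
  let g : Fin k → F → Γ := fun i t => x (q i) (e i * t)
  have hZ : ∀ s t, x γ (s + t) = x γ s * x γ t := hCD.add γ
  have hfadd : ∀ i s t, f i (s + t) = f i s * f i t := fun i => hCD.add (p i)
  have hgadd : ∀ i s t, g i (s + t) = g i s * g i t := by
    intro i s t
    show x (q i) (e i * (s + t)) = _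
    rw [mul_add]
    exact hCD.add (q i) _ _
  have hfc : ∀ i j s t, f i s * f j t = f j t * f i s := fun i j s t =>
    hCD.cmm (p i) (p j) (hpp i j) s t
  have hgc : ∀ i j s t, g i s * g j t = g j t * g i s := fun i j s t =>
    hCD.cmm (q i) (q j) (by rw [hqq]; exact hpp i j) _ _
  have hfZ : ∀ i s z, f i s * x γ z = x γ z * f i s := fun i s z =>
    hCD.cmm (p i) γ (by rw [hpγ i]; norm_num) s z
  have hgZ : ∀ i s z, g i s * x γ z = x γ z * g i s := fun i s z =>
    hCD.cmm (q i) γ (by rw [hqγ i]; norm_num) _ z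
  have hZ0 : x γ 0 = 1 := by
    have := hZ 0 0
    rw [add_zero] at this
    exact (mul_eq_left.1 this.symm)
  have hfg : ∀ i j s t, f i s * g j t = x γ (if i = j then s * t else 0) * (g j t * f i s) := by
    intro i j s t
    by_cases hij : i = j
    · subst hij
      rw [if_pos rfl]
      have h1 := hCD.com (p i) (q i) γ (by rw [hq]; abel) s (e i * t)
      have h2 : (eps C (p i).1 (q i).1 : F) * s * (e i * t) = s * t := by
        show e i * s * (e i * t) = s * t
        calc e i * s * (e i * t) = (e i * e i) * (s * t) := by ring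
          _ = s * t := by rw [he, one_mul]
      rw [h2] at h1
      exact h1
    · rw [if_neg hij, hZ0, one_mul]
      refine hCD.cmm (p i) (q j) ?_ s _
      have h1 := ip_le_one hC (p i) (p j) (fun h => hij (hinj h))
      rw [hpq]
      omega
  refine ⟨fun a => (List.ofFn fun i => f i (a i)).prod,
    fun b => (List.ofFn fun i => g i (b i)).prod, ?_, ?_, ?_⟩
  · exact DFn_prod (fun i (a : Fin k → F) => f i (a i)) fun i =>
      DFn_comp (hdef (p i)) (DFn_apply i)
  · exact DFn_prod (fun i (b : Fin k → F) => g i (b i)) fun i =>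
      DFn_comp (f := fun b : Fin k → F => e i * b i) (g := x (q i)) (hdef (q i))
        (DFn_mul (DFn_const (e i)) (DFn_apply i))
  · refine ⟨fun a b => prod_add f hfadd hfc a b, fun a b => prod_add g hgadd hgc a b, hZ,
      hCD.inj γ, fun a b => ?_, fun a z => prod_central (x γ) _ (fun i s => hfZ i (a i) s) z,
      fun b z => prod_central (x γ) _ (fun i s => hgZ i (b i) s) z⟩
    have h1 : ∀ j, (List.ofFn fun i => f i (a i)).prod * g j (b j) =
        x γ (a j * b j) * (g j (b j) * (List.ofFn fun i => f i (a i)).prod) := by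
      intro j
      have h2 := prod_left (x γ) hZ (fun i => f i (a i))
        (fun i => if i = j then a i * b j else 0) (g j (b j)) (fun i => hfg i j (a i) (b j))
        (fun i s => hfZ i (a i) s)
      rw [h2]
      simp
    exact prod_right (x γ) hZ (fun i => g i (b i)) (fun j => a j * b j) _ h1
      (fun i s => hgZ i (b i) s)

end Pool.Agent.H59.BCT
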